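import Pool.Agent.helper77.B2.F3
import Pool.Agent.helper49.B2.FR2
import Pool.Agent.helper46.B2.GB

/-! # MP_b2b189_gt, b2:DX7: on `S2` the field of the far root commutes with `(far - m) X` -/

set_option autoImplicit false

namespace Pool.Agent.helper68.B2

open scoped ContDiff Topology Matrix
open Matrix Set
open Pool.Agent.helper25.B2 (Sol Block)

variable {S : Geo}

/-- kernel of a simple root -/
theorem DX7_ker {x : E4} {l P : ℝ} {T w : V3} (hP : P ≠ 0)
    (hadj : (S.L x - l • (1 : M3)).adjugate = vecMulVec T (S.G x *ᵥ T))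
    (htr : (S.L x - l • (1 : M3)).adjugate.trace = P)
    (h0 : S.L x *ᵥ w - l • w = 0) (hw : S.g x w T = 0) : w = 0 := by
  have h1 := F3_adj_eq (S.L x - l • (1 : M3))
  have h2 : (S.L x - l • (1 : M3)) *ᵥ w = 0 := by
    rw [Matrix.sub_mulVec, Matrix.smul_mulVec, Matrix.one_mulVec, h0]
  have h3 := congrArg (fun M : M3 => M *ᵥ w) h1
  simp only [Matrix.add_mulVec, Matrix.sub_mulVec, Matrix.smul_mulVec, Matrix.one_mulVec,
    ← Matrix.mulVec_mulVec] at h3
  rw [h0, Matrix.mulVec_zero, smul_zero, smul_zero, sub_zero, sub_zero, zero_add, htr, hadj,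
    Matrix.vecMulVec_mulVec, dotProduct_comm, ← TB_g_def, hw] at h3
  simp only [MulOpposite.op_zero, zero_smul] at h3
  exact (smul_eq_zero.1 h3.symm).resolve_left hP

namespace Roots
variable (R : Roots S)

theorem DX7_null (hNC : S.NC) {x : E4} (hx : x ∈ R.S2) :
    S.g x (R.X x) (R.X x) = 0 ∧ S.L x *ᵥ R.X x = R.m x • R.X x := by
  obtain ⟨B, z, n, e, hxW, hB, hA, -, -, h⟩ := R.block_at hNC hx
  obtain ⟨hl, hs, -, hX, -, hS2, -, -⟩ := h x hxW
  have hx0 : x ≠ 0 := hx.1
  have fr := TB_fr S hx0 (hB.frame x hxW)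
  have hab : B.a x * B.b x = 0 := hS2.1 hx
  have hLz := hB.Lz x hxW
  have hLn := hB.Ln x hxW
  rcases mul_eq_zero.1 hab with ha | hb
  · have hu := hA.1 x hxW ha
    rw [hu, zero_smul, zero_add] at hX
    rw [ha, zero_smul, add_zero] at hLn
    rw [hX]
    constructor
    · rw [TB_smul_l, TB_smul_r]
      have : S.g x (n x) (n x) = 0 := (hB.frame x hxW).nn
      rw [this]; ring
    · rw [Matrix.mulVec_smul, hLn, ← hs, smul_comm]
  · have hv := hA.2 x hxW hb
    rw [hv, zero_smul, add_zero] at hX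
    rw [hb, zero_smul, add_zero] at hLz
    rw [hX]
    constructor
    · rw [TB_smul_l, TB_smul_r]
      have : S.g x (z x) (z x) = 0 := (hB.frame x hxW).zz
      rw [this]; ring
    · rw [Matrix.mulVec_smul, hLz, ← hs, smul_comm]

/-- DX7: on `S2` the field of the far root commutes with `(far - m) X` -/
theorem DX7 (hNC : S.NC) {W : Set E4} {T : E4 → V3} (hT : IsRoot S W R.far 1 T) (hW : W ⊆ R.N)
    {x : E4} (hx : x ∈ W) (h2 : x ∈ R.S2) :
    S.nab (fun y => (R.far y - R.m y) • R.X y) (T x) x =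
      S.nab T ((R.far x - R.m x) • R.X x) x := by
  have hx0 : x ≠ 0 := h2.1
  have hxN : x ∈ R.N := hW hx
  -- the root field
  have hadj : ∀ y ∈ W, (S.L y - R.far y • (1 : M3)).adjugate = vecMulVec (T y) (S.G y *ᵥ T y) := by
    intro y hy
    have := hT.adj y hy
    rwa [one_smul] at this
  have hPi : ∀ y ∈ W, S.g y (T y) (T y) = R.Pi y := by
    intro y hy
    have := (T3_eig S hT hy 0).2.1
    rw [one_mul] at this
    rw [this]; rfl
  have hPi0 : R.Pi x ≠ 0 := (R.Pi_pos hxN).ne'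
  have hXeq : ∀ y ∈ W, R.X y = S.lam y - (S.g y (S.lam y) (T y) / R.Pi y) • T y := by
    intro y hy
    have h1 : R.P3 y *ᵥ S.lam y = (S.g y (S.lam y) (T y) / R.Pi y) • T y := by
      rw [Roots.P3, hadj y hy, Matrix.smul_mulVec, Matrix.vecMulVec_mulVec, dotProduct_comm]
      simp only [op_smul_eq_smul, smul_smul, TB_g_def]
      rw [div_eq_inv_mul]
    rw [Roots.X, h1]
  have hXT : ∀ y ∈ W, S.g y (R.X y) (T y) = 0 := by
    intro y hy
    have h1 : R.Pi y ≠ 0 := (R.Pi_pos (hW hy)).ne'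
    rw [hXeq y hy, TB_sub_l, TB_smul_l, hPi y hy]
    field_simp
    ring
  -- differentiability
  have hTd : DifferentiableAt ℝ T x := TB_diff hT.cone hT.smT hx
  have hXd : DifferentiableAt ℝ R.X x := (R.smN hxN).2.2.2.2.1.differentiableAt (by simp)
  have hfd : DifferentiableAt ℝ R.far x := (R.smN hxN).1.differentiableAt (by simp)
  have hmd : DifferentiableAt ℝ R.m x := (R.smN hxN).2.1.differentiableAt (by simp)
  have hPd : DifferentiableAt ℝ R.Pi x := (R.smN hxN).2.2.1.differentiableAt (by simp)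
  have hld : DifferentiableAt ℝ S.lam x := S.smlam.differentiableAt hx0
  -- values at `x`
  set q : ℝ := S.g x (S.lam x) (T x) with hq
  set P : ℝ := R.Pi x with hP
  set k : ℝ := R.far x - R.m x with hk
  set X₀ : V3 := R.X x with hX₀
  obtain ⟨hXX, hLX⟩ := R.DX7_null hNC h2
  have hk0 : k ≠ 0 := by
    have h3 := ((R.far_S2 hxN).1 h2).2
    rw [hk, R.m_S2 h2]
    exact sub_ne_zero.2 h3
  have hLT : S.L x *ᵥ T x = R.far x • T x := (T3_eig S hT hx 0).1
  have hlam : S.lam x = X₀ + (q / P) • T x := by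
    rw [hX₀, hXeq x hx]; abel
  have hDfar : ∀ v, Dv R.far v x = 2 * q * S.g x (T x) v / P := by
    intro v
    rw [(T3_eig S hT hx v).2.2.2, hPi x hx]
  have hgTX : S.g x (T x) X₀ = 0 := by rw [TB_sym S hx0]; exact hXT x hx
  have hgTT : S.g x (T x) (T x) = P := hPi x hx
  have hDfT : Dv R.far (T x) x = 2 * q := by
    rw [hDfar, hgTT]; field_simp
  have hDfX : Dv R.far X₀ x = 0 := by
    rw [hDfar, hgTX]; ring
  have hDmT : Dv R.m (T x) x = 0 := by
    have := R.F3_Dv_m hxN (T x)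
    rw [hDfT, ← hq] at this
    linarith
  have hlX : S.g x (S.lam x) X₀ = 0 := by
    rw [hlam, TB_add_l, TB_smul_l, hgTX, hXX]; ring
  have hDmX : Dv R.m X₀ x = 0 := by
    have := R.F3_Dv_m hxN X₀
    rw [hDfX, hlX] at this
    linarith
  have hDk : ∀ v, Dv (fun y => R.far y - R.m y) v x = Dv R.far v x - Dv R.m v x := fun v =>
    Dv_sub hfd hmd
  have hkd : DifferentiableAt ℝ (fun y => R.far y - R.m y) x := hfd.sub hmd
  -- `Pi` is stationary in the direction `X`
  have hDPX : Dv R.Pi X₀ x = 0 := by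
    have hmin : IsLocalMin R.F3_D x := by
      filter_upwards [R.N_cone.isOpen.mem_nhds hxN] with y hy
      rw [(R.F3_D_S2 hxN).1 h2]
      exact R.F3_D_nonneg hy
    have h3 : fderiv ℝ R.F3_D x = 0 := hmin.fderiv_eq_zero
    have h4 : R.Pi =ᶠ[𝓝 x] fun y => (R.far y - R.m y) * (R.far y - R.m y) - R.F3_D y := by
      filter_upwards [R.N_cone.isOpen.mem_nhds hxN] with y hy
      rw [R.F3_Pi_eq hy]; ring
    have h5 := (hkd.hasFDerivAt.mul hkd.hasFDerivAt).sub (R.F3_D_diff hxN).hasFDerivAt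
    have h6 : fderiv ℝ R.Pi x = _ := h4.fderiv_eq.trans h5.fderiv
    have h7 := hDk X₀
    rw [hDfX, hDmX, sub_zero] at h7
    unfold Dv at h7 ⊢
    rw [h6]
    simp only [_root_.add_apply, _root_.sub_apply, _root_.smul_apply, smul_eq_mul, h7, h3]
    simp
  -- derivative of `T` in the direction `X`
  have hTX : S.nab T X₀ x = (q / k) • X₀ := by
    have h3 := T3_nab S hT hx X₀
    rw [hDfX, zero_smul, TB_sym S hx0 X₀ (T x), hgTX, zero_smul, add_zero, zero_sub, ← hq] at h3
    have h4 : S.g x (S.nab T X₀ x) (T x) = 0 := by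
      have h5 := S.nab_g hx0 hTd hTd X₀
      have h6 : Dv (fun y => S.g y (T y) (T y)) X₀ x = Dv R.Pi X₀ x := by
        have : (fun y => S.g y (T y) (T y)) =ᶠ[𝓝 x] R.Pi := by
          filter_upwards [hT.cone.isOpen.mem_nhds hx] with y hy using hPi y hy
        unfold Dv
        rw [this.fderiv_eq]
      rw [h6, hDPX, TB_sym S hx0 (T x)] at h5
      linarith
    have h7 : S.nab T X₀ x - (q / k) • X₀ = 0 := by
      refine DX7_ker (S := S) (x := x) (l := R.far x) (P := P) (T := T x) hPi0 (hadj x hx) rfl ?_ ?_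
      · rw [Matrix.mulVec_sub, Matrix.mulVec_smul, hLX, smul_sub]
        have h8 : S.L x *ᵥ S.nab T X₀ x - (q / k) • R.m x • X₀ -
            (R.far x • S.nab T X₀ x - R.far x • (q / k) • X₀)
            = (S.L x *ᵥ S.nab T X₀ x - R.far x • S.nab T X₀ x)
              + ((q / k) * k) • X₀ := by
          rw [hk]; module
        rw [h8, h3, div_mul_cancel₀ _ hk0]
        module
      · rw [TB_sub_l, TB_smul_l, h4, TB_sym S hx0 X₀, hgTX]; ring
    exact sub_eq_zero.1 h7
  -- derivative of `T` in the direction `T`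
  have hTT := T3_nab S hT hx (T x)
  rw [hDfT, ← hq, hgTT] at hTT
  have hTT' : S.L x *ᵥ S.nab T (T x) x - R.far x • S.nab T (T x) x = -(P • X₀) := by
    rw [hTT]
    have : P • S.lam x = P • X₀ + q • T x := by
      rw [hlam, smul_add, smul_smul, mul_div_cancel₀ _ hPi0]
    rw [this]; module
  have hnTT : S.nab T (T x) x = (P / k) • X₀
      + (S.g x (S.nab T (T x) x) (T x) / P) • T x := by
    have h7 : S.nab T (T x) x - ((P / k) • X₀ + (S.g x (S.nab T (T x) x) (T x) / P) • T x) = 0 := by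
      refine DX7_ker (S := S) (x := x) (l := R.far x) (P := P) (T := T x) hPi0 (hadj x hx) rfl ?_ ?_
      · rw [Matrix.mulVec_sub, Matrix.mulVec_add, Matrix.mulVec_smul, Matrix.mulVec_smul, hLX, hLT]
        have h8 : S.L x *ᵥ S.nab T (T x) x - ((P / k) • R.m x • X₀ +
            (S.g x (S.nab T (T x) x) (T x) / P) • R.far x • T x) -
            R.far x • (S.nab T (T x) x - ((P / k) • X₀ +
              (S.g x (S.nab T (T x) x) (T x) / P) • T x))
            = (S.L x *ᵥ S.nab T (T x) x - R.far x • S.nab T (T x) x)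
              + ((P / k) * k) • X₀ := by
          rw [hk]; module
        rw [h8, hTT', div_mul_cancel₀ _ hk0]
        module
      · rw [TB_sub_l, TB_add_l, TB_smul_l, TB_smul_l, TB_sym S hx0 X₀, hgTX, hgTT,
          div_mul_cancel₀ _ hPi0]
        ring
    exact sub_eq_zero.1 h7
  -- derivative of `X` in the direction `T`
  have hT0 : T x ≠ 0 := by
    intro h0
    rw [h0, TB_zero_l] at hgTT
    exact hPi0 hgTT.symm
  obtain ⟨θ, hθ⟩ := S.F1 hx0 hT0 hLT
  rw [S.Lam_mulVec] at hθ
  have hXTn : S.nab R.X (T x) x = -((q / k) • X₀) := by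
    have hcd : DifferentiableAt ℝ (fun y => -(S.g y (S.lam y) (T y) / R.Pi y)) x := by
      have h4 : ContDiffAt ℝ ∞ T x := hT.smT.contDiffAt (hT.cone.isOpen.mem_nhds hx)
      have h3 : ContDiffAt ℝ ∞ (fun y => S.g y (S.lam y) (T y)) x :=
        contDiffAt_bil (S.smG.contDiffAt hx0) (S.smlam.contDiffAt hx0) h4
      have h5 : DifferentiableAt ℝ (fun y => S.g y (S.lam y) (T y) / R.Pi y) x :=
        (h3.div (R.smN hxN).2.2.1 (R.Pi_pos hxN).ne').differentiableAt (by simp)
      exact h5.neg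
    have h3 : S.nab R.X (T x) x =
        S.nab (fun y => S.lam y + (-(S.g y (S.lam y) (T y) / R.Pi y)) • T y) (T x) x := by
      refine TB_nab_congr S hT.cone.isOpen hx (fun y hy => ?_) _
      rw [hXeq y hy]; module
    have h4 : S.nab R.X (T x) x = S.nab S.lam (T x) x
        + (Dv (fun y => -(S.g y (S.lam y) (T y) / R.Pi y)) (T x) x • T x
          + (-(q / P)) • S.nab T (T x) x) := by
      have h5 := TB_nab_add S (V := S.lam)
        (W := fun y => (-(S.g y (S.lam y) (T y) / R.Pi y)) • T y) hld (hcd.smul hTd) (T x)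
      rw [h3, h5, TB_nab_smul S hcd hTd]
    set c₀ := Dv (fun y => -(S.g y (S.lam y) (T y) / R.Pi y)) (T x) x
    have h5 : S.g x (S.nab R.X (T x) x) (T x) = 0 := by
      have h6 := TB_g_const S hT.cone.isOpen hx hx0 hXd hTd (c := 0) hXT (T x)
      have h7 : S.g x (R.X x) (S.nab T (T x) x) = 0 := by
        rw [hnTT, TB_add_r, TB_smul_r, TB_smul_r, hXX, hXT x hx]; ring
      rw [h7, add_zero] at h6
      exact h6
    have h8 : S.nab R.X (T x) x - -((q / k) • X₀) = 0 := by
      refine DX7_ker (S := S) (x := x) (l := R.far x) (P := P) (T := T x) hPi0 (hadj x hx) rfl ?_ ?_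
      · rw [h4, hθ]
        have h9 : S.L x *ᵥ (θ • T x + (c₀ • T x + -(q / P) • S.nab T (T x) x) - -((q / k) • X₀)) -
            R.far x • (θ • T x + (c₀ • T x + -(q / P) • S.nab T (T x) x) - -((q / k) • X₀))
            = (θ + c₀) • (S.L x *ᵥ T x - R.far x • T x)
              + (-(q / P)) • (S.L x *ᵥ S.nab T (T x) x - R.far x • S.nab T (T x) x)
              + (q / k) • (S.L x *ᵥ X₀ - R.far x • X₀) := by
          simp only [Matrix.mulVec_sub, Matrix.mulVec_add, Matrix.mulVec_smul, Matrix.mulVec_neg]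
          module
        rw [h9, hTT', hLT, sub_self, smul_zero, zero_add, hLX]
        have h10 : -(q / P) • -(P • X₀) + (q / k) • (R.m x • X₀ - R.far x • X₀)
            = ((q / P) * P - (q / k) * k) • X₀ := by
          rw [hk]; module
        rw [h10, div_mul_cancel₀ _ hPi0, div_mul_cancel₀ _ hk0, sub_self, zero_smul]
      · rw [TB_sub_l, h5, TB_neg_l, TB_smul_l, TB_sym S hx0 X₀, hgTX]; ring
    exact sub_eq_zero.1 h8
  -- conclusion
  have hsm : S.nab T ((R.far x - R.m x) • R.X x) x = k • S.nab T X₀ x := by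
    unfold Geo.nab
    rw [Dv_smul_arg, S.Gam_smul, Matrix.smul_mulVec, smul_add]
  rw [TB_nab_smul S hkd hXd, hXTn, hsm, hTX, hDk, hDfT, hDmT, sub_zero]
  have h11 : (2 * q) • R.X x + (R.far x - R.m x) • -((q / k) • X₀)
      = (2 * q - (q / k) * k) • X₀ := by
    rw [hk]; module
  rw [h11, smul_smul, div_mul_cancel₀ _ hk0, mul_div_cancel₀ _ hk0]
  congr 1
  ring

end Roots

end Pool.Agent.helper68.B2
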