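import Pool.Agent.helper77.B2.STd
import Pool.Agent.helper22.B2.STa
import Pool.Agent.helper49.B2.STb
import Pool.Agent.helper49.B2.STc

/-! # MP_b2b189_gt: the bridge from the frozen statement -/

set_option autoImplicit false

namespace Pool.Agent.helper68.B2

open scoped ContDiff Topology Matrix
open Matrix Set

/-! ## signature -/

theorem STe_near (x : E4) (hx : x ≠ 0) {P : E4 → Prop} (hP : ∀ᶠ y in 𝓝 x, P y) :
    ∃ y : E4, y ≠ 0 ∧ y 3 ≠ ‖y‖ ∧ P y := by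
  by_cases h3 : x 3 = ‖x‖
  · have hn : 0 < ‖x‖ := norm_pos_iff.2 hx
    have h0 : x 0 = 0 := by
      have := STa_normsq x
      rw [← h3] at this
      nlinarith [sq_nonneg (x 0), sq_nonneg (x 1), sq_nonneg (x 2)]
    have hc : Filter.Tendsto (fun t : ℝ => x + t • EuclideanSpace.single (0 : Fin 4) (1 : ℝ))
        (𝓝 0) (𝓝 x) := by
      have : Continuous (fun t : ℝ => x + t • EuclideanSpace.single (0 : Fin 4) (1 : ℝ)) := by
        fun_prop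
      have h := this.tendsto 0
      simpa using h
    have h1 := hc.eventually hP
    obtain ⟨t, ht, ht0⟩ := ((h1.filter_mono nhdsWithin_le_nhds).and
      (self_mem_nhdsWithin (a := (0 : ℝ)) (s := {0}ᶜ))).exists
    set y := x + t • EuclideanSpace.single (0 : Fin 4) (1 : ℝ) with hy
    have e3 : y 3 = x 3 := by simp [hy]
    have e0 : y 0 = t := by simp [hy, h0]
    have ht2 : 0 < t ^ 2 := by
      have : t ≠ 0 := ht0
      positivity
    refine ⟨y, ?_, ?_, ht⟩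
    · intro h
      rw [h] at e3
      simp at e3
      linarith
    · intro h
      have := STa_normsq y
      rw [← h, e0] at this
      nlinarith [sq_nonneg (y 1), sq_nonneg (y 2)]
  · exact ⟨x, hx, h3, hP.self_of_nhds⟩

theorem STe_bil_smul (A : M3) (c : ℝ) (v : V3) : bil A (c • v) (c • v) = c ^ 2 * bil A v v := by
  simp only [bil, Matrix.mulVec_smul, smul_dotProduct, dotProduct_smul, smul_eq_mul]
  ring

theorem STe_bil_conj (B g : M3) (v : V3) : bil (Bᵀ * g * B) v v = bil g (B *ᵥ v) (B *ᵥ v) := by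
  simp only [bil]
  rw [Matrix.mul_assoc, ← Matrix.mulVec_mulVec, ← Matrix.mulVec_mulVec, Matrix.dotProduct_mulVec,
    Matrix.vecMul_transpose]

theorem STe_pos (G : E4 → M3) (hG : Sm G)
    (hs : ∀ x, x ≠ 0 → (G x)ᵀ = G x ∧ (G x).det ≠ 0) (g : (Fin 3 → ℝ) → M3)
    (hg : ∀ y, (g y).IsSymm ∧ ¬ (-g y).PosDef)
    (hr : ∀ x, x ≠ 0 → x 3 ≠ ‖x‖ → G x = (stB stX x)ᵀ * g (stX x) * stB stX x)
    (x : E4) (hx : x ≠ 0) : ∃ v : V3, 0 < bil (G x) v v := by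
  by_contra hcon
  push Not at hcon
  -- negative definite at `x`
  have hneg : ∀ v : V3, v ≠ 0 → bil (G x) v v < 0 := by
    have h1 : (-G x).PosSemidef := by
      refine Matrix.PosSemidef.of_dotProduct_mulVec_nonneg ?_ fun v => ?_
      · rw [Matrix.IsHermitian, Matrix.conjTranspose_neg, Matrix.conjTranspose_eq_transpose_of_trivial,
          (hs x hx).1]
      · have := hcon v
        simp only [bil] at this
        simp only [star_trivial, Matrix.neg_mulVec, dotProduct_neg]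
        linarith
    have h2 : (-G x).PosDef := by
      rw [h1.posDef_iff_det_ne_zero, Matrix.det_neg]
      simp [(hs x hx).2]
    intro v hv
    have h3 := h2.dotProduct_mulVec_pos hv
    simp only [star_trivial, Matrix.neg_mulVec, dotProduct_neg] at h3
    simp only [bil]
    linarith
  have hev : ∀ᶠ y in 𝓝 x, ∀ v ∈ Metric.sphere (0 : V3) 1, bil (G y) v v < 0 := by
    refine (isCompact_sphere (0 : V3) 1).eventually_forall_of_forall_eventually fun v hv => ?_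
    have hv0 : v ≠ 0 := by
      intro h
      rw [h] at hv
      simp at hv
    have hc : ContinuousAt (fun z : E4 × V3 => bil (G z.1) z.2 z.2) (x, v) := by
      have h1 : ∀ a b, ContinuousAt (fun z : E4 × V3 => G z.1 a b) (x, v) := fun a b =>
        ContinuousAt.comp (g := fun y => G y a b) (f := fun z : E4 × V3 => z.1) (x := (x, v))
          (STd_entry_cd (STd_cd hG hx) a b).continuousAt continuousAt_fst
      have h2 : ∀ a, ContinuousAt (fun z : E4 × V3 => z.2 a) (x, v) := fun a => by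
        fun_prop
      simp only [bil, dotProduct, Matrix.mulVec, Fin.sum_univ_three]
      have h3 : ∀ a, ContinuousAt (fun z : E4 × V3 =>
          z.2 a * (G z.1 a 0 * z.2 0 + G z.1 a 1 * z.2 1 + G z.1 a 2 * z.2 2)) (x, v) := fun a =>
        (h2 a).mul ((((h1 a 0).mul (h2 0)).add ((h1 a 1).mul (h2 1))).add ((h1 a 2).mul (h2 2)))
      exact ((h3 0).add (h3 1)).add (h3 2)
    exact hc.eventually (gt_mem_nhds (hneg v hv0))
  obtain ⟨y, hy0, hy3, hy⟩ := STe_near x hx hev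
  have hB := BRa_jac y hy0 hy3
  set B := stB stX y with hBdef
  have hBu : IsUnit B.det := isUnit_iff_ne_zero.2 hB
  refine (hg (stX y)).2 (Matrix.PosDef.of_dotProduct_mulVec_pos ?_ fun w hw => ?_)
  · rw [Matrix.IsHermitian, Matrix.conjTranspose_neg, Matrix.conjTranspose_eq_transpose_of_trivial,
      (hg (stX y)).1.eq]
  · set v : V3 := B⁻¹ *ᵥ w with hv
    have hBv : B *ᵥ v = w := by
      rw [hv, Matrix.mulVec_mulVec, Matrix.mul_nonsing_inv _ hBu, Matrix.one_mulVec]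
    have hv0 : v ≠ 0 := by
      intro h
      rw [h, Matrix.mulVec_zero] at hBv
      exact hw hBv.symm
    have hnv : 0 < ‖v‖ := norm_pos_iff.2 hv0
    have h1 := hy (‖v‖⁻¹ • v) (by
      rw [mem_sphere_zero_iff_norm, norm_smul, norm_inv, norm_norm, inv_mul_cancel₀ hnv.ne'])
    rw [STe_bil_smul, hr y hy0 hy3, STe_bil_conj, hBv] at h1
    have h2 : 0 < (‖v‖⁻¹) ^ 2 := by positivity
    have h3 : bil (g (stX y)) w w < 0 := by
      by_contra h4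
      push Not at h4
      have := mul_nonneg h2.le h4
      linarith
    simp only [star_trivial, Matrix.neg_mulVec, dotProduct_neg]
    simp only [bil] at h3
    linarith

/-- the sign of a nonvanishing smooth function is constant -/
theorem STe_sign (f : E4 → ℝ) (hf : Sm f) (h0 : ∀ x, x ≠ 0 → f x ≠ 0) :
    (∀ x, x ≠ 0 → f x < 0) ∨ (∀ x, x ≠ 0 → 0 < f x) := by
  by_contra hcon
  push Not at hcon
  obtain ⟨⟨a, ha, ha'⟩, b, hb, hb'⟩ := hcon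
  have hpre : IsPreconnected ({0}ᶜ : Set E4) :=
    (isConnected_compl_singleton_of_one_lt_rank (by
      rw [← Module.finrank_eq_rank, finrank_euclideanSpace_fin]; norm_num) 0).isPreconnected
  have h1 := hpre.intermediate_value hb ha hf.continuousOn
  have h2 : (0 : ℝ) ∈ Set.Icc (f b) (f a) := ⟨hb', ha'⟩
  obtain ⟨c, hc, hc0⟩ := h1 h2
  exact h0 c hc hc0

/-- `L` is not a multiple of the identity -/
theorem STe_nc (G₁ G₂ L : E4 → M3) (g₁ g₂ : (Fin 3 → ℝ) → M3)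
    (hs₁ : ∀ x, x ≠ 0 → (G₁ x)ᵀ = G₁ x ∧ (G₁ x).det ≠ 0)
    (hs₂ : ∀ x, x ≠ 0 → (G₂ x)ᵀ = G₂ x ∧ (G₂ x).det ≠ 0)
    (hr₁ : ∀ x, x ≠ 0 → x 3 ≠ ‖x‖ → G₁ x = (stB stX x)ᵀ * g₁ (stX x) * stB stX x)
    (hr₂ : ∀ x, x ≠ 0 → x 3 ≠ ‖x‖ → G₂ x = (stB stX x)ᵀ * g₂ (stX x) * stB stX x)
    (hL : ∀ x, x ≠ 0 → L x = ((|(G₂ x).det / (G₁ x).det|) ^ (1 / 4 : ℝ)) • ((G₂ x)⁻¹ * G₁ x))
    (hn : ¬ ∃ c : ℝ, ∀ x, g₂ x = c • g₁ x) : ¬ ∃ c : ℝ, ∀ x, x ≠ 0 → L x = c • (1 : M3) := by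
  rintro ⟨c, hc⟩
  refine hn ⟨|c|⁻¹ ^ 3 / c, fun y => ?_⟩
  obtain ⟨x, hx, h3, hxy⟩ := BRa_surj y
  have hd1 := (hs₁ x hx).2
  have hd2 := (hs₂ x hx).2
  set q : ℝ := |(G₂ x).det / (G₁ x).det| with hq
  have hq0 : 0 < q := abs_pos.2 (div_ne_zero hd2 hd1)
  set a : ℝ := q ^ (1 / 4 : ℝ) with ha
  have ha0 : 0 < a := Real.rpow_pos_of_pos hq0 _
  have ha4 : a ^ 4 = q := by
    rw [ha, ← Real.rpow_natCast, ← Real.rpow_mul hq0.le]
    norm_num
  have h1 : a • ((G₂ x)⁻¹ * G₁ x) = c • (1 : M3) := by rw [← hL x hx, hc x hx]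
  have h2 : a • G₁ x = c • G₂ x := by
    have h := congrArg (fun M : M3 => G₂ x * M) h1
    simp only [Matrix.mul_smul, Matrix.mul_one] at h
    rw [← Matrix.mul_assoc, Matrix.mul_nonsing_inv _ (isUnit_iff_ne_zero.2 hd2),
      Matrix.one_mul] at h
    exact h
  have h4 : a ^ 3 * (G₁ x).det = c ^ 3 * (G₂ x).det := by
    have h := congrArg Matrix.det h2
    rw [Matrix.det_smul, Matrix.det_smul, Fintype.card_fin] at h
    exact h
  have hc0 : c ≠ 0 := by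
    intro h
    rw [h] at h4
    have : a ^ 3 * (G₁ x).det ≠ 0 := mul_ne_zero (by positivity) hd1
    apply this
    rw [h4]
    ring
  have h5 : a ^ 3 = |c| ^ 3 * q := by
    have h := congrArg abs h4
    rw [abs_mul, abs_mul, abs_pow, abs_pow, abs_of_pos ha0] at h
    rw [hq, abs_div]
    have : |(G₁ x).det| ≠ 0 := abs_ne_zero.2 hd1
    field_simp
    exact h
  have h6 : a = |c|⁻¹ ^ 3 := by
    have hc1 : |c| ≠ 0 := abs_ne_zero.2 hc0
    rw [← ha4] at h5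
    have h7 : a ^ 3 * (|c| ^ 3 * a - 1) = 0 := by linear_combination -h5
    rcases mul_eq_zero.1 h7 with h8 | h8
    · exact absurd h8 (by positivity)
    · field_simp
      linarith
  have h7 : G₂ x = (|c|⁻¹ ^ 3 / c) • G₁ x := by
    rw [← h6, div_eq_inv_mul, mul_smul, h2, smul_smul, inv_mul_cancel₀ hc0, one_smul]
  rw [hr₁ x hx h3, hr₂ x hx h3, hxy] at h7
  have hB := BRa_jac x hx h3
  set B := stB stX x with hBdef
  have hBu : IsUnit B.det := isUnit_iff_ne_zero.2 hB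
  have hBu' : IsUnit (Bᵀ).det := by rwa [Matrix.det_transpose]
  have h8 : ∀ M : M3, (Bᵀ)⁻¹ * (Bᵀ * M * B) * B⁻¹ = M := by
    intro M
    rw [← Matrix.mul_assoc, ← Matrix.mul_assoc, Matrix.nonsing_inv_mul _ hBu', Matrix.one_mul,
      Matrix.mul_assoc, Matrix.mul_nonsing_inv _ hBu, Matrix.mul_one]
  rw [← h8 (g₂ y), h7, Matrix.mul_smul, Matrix.smul_mul, h8]

/-- the final bridge: the hypothesis is the body of the frozen statement -/
theorem bridge (h : ∃ g₁ g₂ h₁ h₂ : (Fin 3 → ℝ) → Matrix (Fin 3) (Fin 3) ℝ,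
    (∀ i j, ContDiff ℝ (⊤ : ℕ∞) (fun x => g₁ x i j)) ∧
    (∀ i j, ContDiff ℝ (⊤ : ℕ∞) (fun x => g₂ x i j)) ∧
    (∀ i j, ContDiff ℝ (⊤ : ℕ∞) (fun y => h₁ y i j)) ∧
    (∀ i j, ContDiff ℝ (⊤ : ℕ∞) (fun y => h₂ y i j)) ∧
    (∀ x, (g₁ x).IsSymm ∧ (g₁ x).det ≠ 0 ∧ ¬ (g₁ x).PosDef ∧ ¬ (-g₁ x).PosDef) ∧
    (∀ x, (g₂ x).IsSymm ∧ (g₂ x).det ≠ 0 ∧ ¬ (g₂ x).PosDef ∧ ¬ (-g₂ x).PosDef) ∧
    (∀ y, (h₁ y).IsSymm ∧ (h₁ y).det ≠ 0 ∧ ¬ (h₁ y).PosDef ∧ ¬ (-h₁ y).PosDef) ∧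
    (∀ y, (h₂ y).IsSymm ∧ (h₂ y).det ≠ 0 ∧ ¬ (h₂ y).PosDef ∧ ¬ (-h₂ y).PosDef) ∧
    Glue g₁ h₁ ∧ Glue g₂ h₂ ∧
    (∃ φ : (Fin 3 → ℝ) → Fin 3 → ℝ, ∀ x i j k,
        chris g₂ x i j k = chris g₁ x i j k + (if i = j then φ x k else 0)
          + (if i = k then φ x j else 0)) ∧
    ¬ ∃ c : ℝ, ∀ x, g₂ x = c • g₁ x) :
    ∃ S : Geo, S.NC := by
  obtain ⟨g₁, g₂, h₁, h₂, sg₁, sg₂, sh₁, sh₂, pg₁, pg₂, ph₁, ph₂, gl₁, gl₂, hφ, hn⟩ := h
  obtain ⟨G₁, hG₁, hH₁, hs₁, hr₁⟩ := BRa g₁ h₁ sg₁ sh₁ gl₁ (fun x => ⟨(pg₁ x).1, (pg₁ x).2.1⟩)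
    (fun x => ⟨(ph₁ x).1, (ph₁ x).2.1⟩)
  obtain ⟨G₂, hG₂, hH₂, hs₂, hr₂⟩ := BRa g₂ h₂ sg₂ sh₂ gl₂ (fun x => ⟨(pg₂ x).1, (pg₂ x).2.1⟩)
    (fun x => ⟨(ph₂ x).1, (ph₂ x).2.1⟩)
  obtain ⟨Γ₁, hΓ₁, hΓH₁, hm₁, ht₁⟩ := BRb G₁ hG₁ hH₁ hs₁
  obtain ⟨Γ₂, hΓ₂, hΓH₂, hm₂, ht₂⟩ := BRb G₂ hG₂ hH₂ hs₂
  obtain ⟨ψ, hψ⟩ := BRc g₁ g₂ sg₁ sg₂ (fun x => ⟨(pg₁ x).1, (pg₁ x).2.1⟩)
    (fun x => ⟨(pg₂ x).1, (pg₂ x).2.1⟩) hφ G₁ G₂ hG₁ hG₂ hr₁ hr₂ Γ₁ Γ₂ hΓ₁ hΓ₂ hm₁ hm₂ ht₁ ht₂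
  obtain ⟨L, lam, hL, hHL, hlam, hHlam, hLeq, hsa, hmain⟩ := BRd_sinjukov G₁ G₂ hG₁ hG₂ hH₁ hH₂
    hs₁ hs₂ Γ₁ Γ₂ hΓ₁ hΓ₂ hΓH₁ hΓH₂ hm₁ hm₂ ψ hψ
  have hNC := STe_nc G₁ G₂ L g₁ g₂ hs₁ hs₂ hr₁ hr₂ hLeq hn
  rcases STe_sign (fun x => (G₁ x).det) (STd_sm fun x hx => STd_det_cd (STd_cd hG₁ hx))
    (fun x hx => (hs₁ x hx).2) with hneg | hpos
  · refine ⟨{ G := G₁, L := L, lam := lam, Γ := Γ₁, smG := hG₁, smL := hL, smlam := hlam,
              smΓ := hΓ₁, homG := hH₁, homL := hHL, homlam := hHlam, homΓ := hΓH₁,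
              symm := fun x hx => (hs₁ x hx).1, det_neg := hneg,
              pos := STe_pos G₁ hG₁ hs₁ g₁ (fun y => ⟨(pg₁ y).1, (pg₁ y).2.2.2⟩) hr₁,
              selfadj := hsa, metric := hm₁, torsion := ht₁, main := hmain }, hNC⟩
  · have hG' : Sm (fun x => -G₁ x) := hG₁.neg
    refine ⟨{ G := fun x => -G₁ x, L := L, lam := fun x => -lam x, Γ := Γ₁, smG := hG', smL := hL,
              smlam := hlam.neg, smΓ := hΓ₁, homG := fun t ht x => congrArg Neg.neg (hH₁ t ht x),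
              homL := hHL, homlam := fun t ht x => congrArg Neg.neg (hHlam t ht x), homΓ := hΓH₁,
              symm := fun x hx => by rw [Matrix.transpose_neg, (hs₁ x hx).1],
              det_neg := fun x hx => ?_,
              pos := STe_pos (fun x => -G₁ x) hG' (fun x hx => ⟨?_, ?_⟩) (fun y => -g₁ y)
                (fun y => ⟨?_, ?_⟩) (fun x hx h3 => ?_),
              selfadj := fun x hx => ?_, metric := fun x hx i => ?_, torsion := ht₁,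
              main := fun x hx i => ?_ }, hNC⟩
    · rw [Matrix.det_neg, Fintype.card_fin]
      have := hpos x hx
      linarith
    · rw [Matrix.transpose_neg, (hs₁ x hx).1]
    · rw [Matrix.det_neg]
      simp [(hs₁ x hx).2]
    · rw [Matrix.IsSymm, Matrix.transpose_neg, (pg₁ y).1.eq]
    · rw [neg_neg]
      exact (pg₁ y).2.2.1
    · rw [hr₁ x hx h3, Matrix.mul_neg, Matrix.neg_mul]
    · show (-G₁ x * L x)ᵀ = -G₁ x * L x
      rw [Matrix.neg_mul, Matrix.transpose_neg, hsa x hx]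
    · have h1 : Dv (fun y => -G₁ y) (ee i) x = -Dv G₁ (ee i) x := by
        have := (STd_diff hG₁ hx).hasFDerivAt.neg.fderiv
        exact congrArg (fun l : E4 →L[ℝ] M3 => l (fld (ee i) x)) this
      rw [h1, hm₁ x hx i, Matrix.mul_neg, Matrix.neg_mul]
      abel
    · rw [hmain x hx i, odot, odot, Matrix.mulVec_neg, Matrix.neg_mulVec, Matrix.neg_mulVec,
        neg_neg, Matrix.neg_vecMulVec, Matrix.vecMulVec_neg, neg_neg]

end Pool.Agent.helper68.B2
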