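import Pool.Agent.helper68.B2.Defs3
import Pool.Agent.helper58.B2.W2
import Pool.Agent.helper58.B2.W5
import Pool.Agent.helper98.B2.GA
import Pool.Agent.helper97.B2.T3b
import Pool.Agent.helper93.B2.TB
import Pool.Agent.helper49.B2.FR1

/-! # MP_b2b189_gt, b2:F3: the root field of the far eigenvalue, up to sign -/

set_option autoImplicit false

namespace Pool.Agent.helper68.B2

open scoped ContDiff Topology Matrix
open Matrix Set
open Pool.Agent.helper25.B2 (Sol Block)

variable {S : Geo}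

/-! ## algebra -/

theorem F3_vec_eq {v w : V3} (hw : w ≠ 0) (h : vecMulVec v v = vecMulVec w w) :
    v = w ∨ v = -w := by
  obtain ⟨i, hi⟩ : ∃ i, w i ≠ 0 := by
    by_contra hc
    push Not at hc
    exact hw (funext hc)
  have h1 : ∀ a b, v a * v b = w a * w b := fun a b => by
    have := congrFun (congrFun h a) b
    simpa [Matrix.vecMulVec_apply] using this
  have h2 : (v i - w i) * (v i + w i) = 0 := by linear_combination h1 i i
  rcases mul_eq_zero.1 h2 with h3 | h3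
  · left
    have h4 : v i = w i := by linarith
    funext a
    have h5 := h1 i a
    rw [h4] at h5
    exact mul_left_cancel₀ hi h5
  · right
    have h4 : v i = -w i := by linarith
    funext a
    have h5 := h1 i a
    rw [h4] at h5
    have h6 : w i * (v a) = w i * (-w a) := by linarith
    exact mul_left_cancel₀ hi h6

/-- second elementary symmetric function -/
theorem F3_e2 {A : M3} {a b c : ℝ} (h : RR3 A a b c) :
    (A.trace ^ 2 - (A * A).trace) / 2 = a * b + b * c + c * a := by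
  have h1 := h 1
  have h2 := h (-1)
  simp only [Matrix.det_fin_three, Matrix.sub_apply, Matrix.smul_apply, Matrix.one_apply,
    smul_eq_mul] at h1 h2
  simp only [Matrix.trace_fin_three, Matrix.mul_apply, Fin.sum_univ_three]
  simp at h1 h2
  linarith

theorem F3_adj_eq (A : M3) :
    A.adjugate = A * A - A.trace • A + A.adjugate.trace • (1 : M3) := by
  ext i j
  fin_cases i <;> fin_cases j <;>
  · simp [Matrix.adjugate_fin_three, Matrix.trace_fin_three, Matrix.mul_apply,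
      Fin.sum_univ_three]
    ring

namespace Roots
variable (R : Roots S)

theorem F3_root {x : E4} (hx : x ∈ R.N) : (S.L x - R.far x • (1 : M3)).det = 0 := by
  obtain ⟨r, hr, -⟩ := R.far_fac hx
  have h := hr (R.far x)
  rw [sub_self, mul_zero] at h
  have h2 : S.L x - R.far x • (1 : M3) = -(R.far x • (1 : M3) - S.L x) := by abel
  rw [h2, Matrix.det_neg, h, mul_zero]

theorem F3_adj {x : E4} (hx : x ∈ R.N) : ∃ w : V3, w ≠ 0 ∧ R.Pi x = S.g x w w ∧
    (S.L x - R.far x • (1 : M3)).adjugate = vecMulVec w (S.G x *ᵥ w) ∧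
    S.Ku (R.far x) x = vecMulVec w w := by
  have hx0 : x ≠ 0 := hx.1
  obtain ⟨e, hee, hLe, hP⟩ := R.far_space hx
  have hPi := R.Pi_pos hx
  have hadj : (S.L x - R.far x • (1 : M3)).adjugate = R.Pi x • vecMulVec e (S.G x *ᵥ e) := by
    rw [← hP, Roots.P3, smul_smul, mul_inv_cancel₀ hPi.ne', one_smul]
  have hsq : Real.sqrt (R.Pi x) * Real.sqrt (R.Pi x) = R.Pi x := Real.mul_self_sqrt hPi.le
  have h1 : (S.L x - R.far x • (1 : M3)).adjugate =
      vecMulVec (Real.sqrt (R.Pi x) • e) (S.G x *ᵥ (Real.sqrt (R.Pi x) • e)) := by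
    rw [Matrix.mulVec_smul, Matrix.vecMulVec_smul, Matrix.smul_vecMulVec, smul_smul, hsq, hadj]
  refine ⟨Real.sqrt (R.Pi x) • e, ?_, ?_, h1, ?_⟩
  · intro h0
    have he : e = 0 := (smul_eq_zero.1 h0).resolve_left (Real.sqrt_pos.2 hPi).ne'
    rw [he, TB_zero_l] at hee
    exact zero_ne_one hee
  · rw [TB_smul_l, TB_smul_r, hee, mul_one, hsq]
  · have hu : IsUnit (S.G x).det := isUnit_iff_ne_zero.2 (S.det_neg x hx0).ne
    rw [Geo.Ku, Geo.K, h1, Matrix.vecMulVec_mul]
    congr 1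
    rw [← Matrix.mulVec_transpose, Matrix.transpose_nonsing_inv, S.symm x hx0,
      Matrix.mulVec_mulVec, Matrix.nonsing_inv_mul _ hu, Matrix.one_mulVec]

/-- consequences of `Ku far = w ⊗ w` -/
theorem F3_facts {x : E4} (hx : x ∈ R.N) {w : V3} (hw : S.Ku (R.far x) x = vecMulVec w w) :
    w ≠ 0 ∧ R.Pi x = S.g x w w ∧
      (S.L x - R.far x • (1 : M3)).adjugate = vecMulVec w (S.G x *ᵥ w) ∧
      S.L x *ᵥ w = R.far x • w := by
  have hx0 : x ≠ 0 := hx.1
  obtain ⟨e, he0, hPi, hadj, hKu⟩ := R.F3_adj hx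
  have hLe : S.L x *ᵥ e = R.far x • e := by
    have h1 := Matrix.mul_adjugate (S.L x - R.far x • (1 : M3))
    rw [R.F3_root hx, zero_smul, hadj, Matrix.mul_vecMulVec] at h1
    have hGe : S.G x *ᵥ e ≠ 0 := by
      intro h0
      have : R.Pi x = 0 := by rw [hPi, TB_g_def, h0, dotProduct_zero]
      exact (R.Pi_pos hx).ne' this
    obtain ⟨j, hj⟩ : ∃ j, (S.G x *ᵥ e) j ≠ 0 := by
      by_contra hc
      push Not at hc
      exact hGe (funext hc)
    have h2 : (S.L x - R.far x • (1 : M3)) *ᵥ e = 0 := by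
      funext i
      have h3 := congrFun (congrFun h1 i) j
      rw [Matrix.vecMulVec_apply] at h3
      exact (mul_eq_zero.1 h3).resolve_right hj
    rw [Matrix.sub_mulVec, Matrix.smul_mulVec, Matrix.one_mulVec, sub_eq_zero] at h2
    exact h2
  rw [hKu] at hw
  rcases F3_vec_eq he0 hw.symm with h1 | h1
  · rw [h1]; exact ⟨he0, hPi, hadj, hLe⟩
  · rw [h1]
    refine ⟨neg_ne_zero.2 he0, ?_, ?_, ?_⟩
    · rw [TB_neg_l, TB_neg_r, neg_neg, hPi]
    · rw [Matrix.mulVec_neg, Matrix.vecMulVec_neg, Matrix.neg_vecMulVec, neg_neg, hadj]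
    · rw [Matrix.mulVec_neg, hLe, smul_neg]

theorem F3_smfar : ContDiffOn ℝ ∞ R.far R.N := fun x hx =>
  ((R.smN hx).1).contDiffWithinAt

/-- the field of the far root, up to sign -/
def F3 : SField E4 where
  V := R.N
  isOpen := R.N_cone.isOpen
  Rt := fun x w => ∃ v : V3, w = fld v x ∧ S.Ku (R.far x) x = vecMulVec v v
  sec := by
    intro p hp
    obtain ⟨w₀, hw0, -, -, hKu⟩ := R.F3_adj hp
    obtain ⟨W, hW, hpW, hWN, w, hws, hwp, hw⟩ := W2_local (fun x => S.Ku (R.far x) x) 1 (Or.inl rfl)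
      R.N R.N_cone.isOpen (by
        intro i j x hx
        have hx0 : x ≠ 0 := hx.1
        have h1 : ContDiffAt ℝ ∞ (fun y => S.L y - R.far y • (1 : M3)) x :=
          (S.smL.contDiffAt hx0).sub ((R.smN hx).1.smul contDiffAt_const)
        have h2 := contDiffAt_adjugate h1
        have h3 := contDiffAt_inv (S.smG.contDiffAt hx0) (S.det_neg x hx0).ne
        exact ((contDiffAt_entries.1 (h2.mul h3)) i j).contDiffWithinAt) (by
        intro x hx
        obtain ⟨w, hw0, -, -, hKu⟩ := R.F3_adj hx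
        exact ⟨w, hw0, by rw [one_smul]; exact hKu⟩) p hp w₀ (by rw [one_smul]; exact hKu)
    refine ⟨W, hW.mem_nhds hpW, hWN, fun x => fld (w x) x, ?_, ?_⟩
    · have h1 : ContDiffOn ℝ 1 w W := hws.of_le (by simp)
      unfold fld
      refine ContDiffOn.sum fun i _ => ?_
      exact ((contDiffOn_pi.1 h1) i).smul ((J i).contDiff.contDiffOn)
    · intro x hx
      have hx0 : x ≠ 0 := (hWN hx).1
      obtain ⟨h1, h2⟩ := hw x hx
      rw [one_smul] at h2
      refine ⟨fun h0 => h1 (fld_eq_zero hx0 h0), fun v => ⟨?_, ?_⟩⟩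
      · rintro ⟨u, hu, hKu⟩
        have h2' : S.Ku (R.far x) x = vecMulVec (w x) (w x) := h2
        rw [h2'] at hKu
        rcases F3_vec_eq h1 hKu.symm with h3 | h3
        · left; rw [hu, h3]
        · right
          rw [hu, h3]
          simp [fld]
      · rintro (h3 | h3)
        · exact ⟨w x, h3, h2⟩
        · refine ⟨-w x, ?_, ?_⟩
          · rw [h3]; simp [fld]
          · rw [Matrix.vecMulVec_neg, Matrix.neg_vecMulVec, neg_neg]; exact h2

/-! ## the discriminant of the block -/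

/-- the square of half of the difference of the two block eigenvalues -/
noncomputable def F3_D (x : E4) : ℝ :=
  R.m x ^ 2 - ((S.L x).trace ^ 2 - (S.L x * S.L x).trace) / 2 + 2 * R.m x * R.far x

theorem F3_D_eq {x : E4} {r : ℝ} (h : RR3 (S.L x) (R.τ x) r (R.far x)) :
    R.F3_D x = ((R.τ x - r) / 2) ^ 2 := by
  have h1 := RR3_trace h
  have h2 := F3_e2 h
  rw [F3_D, Roots.m, h2, h1]
  ring

theorem F3_D_nonneg {x : E4} (hx : x ∈ R.N) : 0 ≤ R.F3_D x := by
  obtain ⟨r, hr, -⟩ := R.far_fac hx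
  rw [R.F3_D_eq hr]
  positivity

theorem F3_D_S2 {x : E4} (hx : x ∈ R.N) : x ∈ R.S2 ↔ R.F3_D x = 0 := by
  obtain ⟨r, hr, hlt⟩ := R.far_fac hx
  rw [R.F3_D_eq hr, R.far_S2 hx]
  constructor
  · rintro ⟨h, hne⟩
    have h1 := RR3_trace h
    have h2 := RR3_trace hr
    have : r = R.τ x := by linarith
    rw [this]; ring
  · intro h
    have h1 : R.τ x = r := by
      have := pow_eq_zero_iff (two_ne_zero) |>.1 h
      linarith
    rw [← h1, sub_self, abs_zero] at hlt
    refine ⟨?_, fun h2 => ?_⟩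
    · rw [h1] at hr ⊢; exact hr
    · rw [h2, sub_self, abs_zero] at hlt
      exact lt_irrefl _ hlt

theorem F3_Pi_eq {x : E4} (hx : x ∈ R.N) : R.Pi x = (R.far x - R.m x) ^ 2 - R.F3_D x := by
  obtain ⟨r, hr, -⟩ := R.far_fac hx
  have h1 : RR3 (S.L x) (R.far x) (R.τ x) r := fun t => by rw [hr t]; ring
  have h2 := (RR3_adj h1).1
  have h3 := RR3_trace hr
  rw [R.F3_D_eq hr, Roots.Pi, h2, Roots.m, h3]
  ring

/-- differential of the far root -/
theorem F3_Dv_far {x : E4} (hx : x ∈ R.N) {w : V3} (hw : S.Ku (R.far x) x = vecMulVec w w)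
    (v : V3) : R.Pi x * Dv R.far v x = 2 * S.g x (S.lam x) w * S.g x w v := by
  obtain ⟨-, hPi, hadj, -⟩ := R.F3_facts hx hw
  have h := T3_d S R.N_cone.isOpen R.N_cone.zero R.F3_smfar (fun y hy => R.F3_root hy) hx v
  have h1 : S.K (R.far x) x *ᵥ S.lam x = S.g x (S.lam x) w • w := by
    rw [Geo.K, hadj, Matrix.vecMulVec_mulVec, dotProduct_comm]
    simp [TB_g_def]
  rw [h1, TB_smul_l] at h
  rw [Roots.Pi, h]
  ring

theorem F3_Dv_m {x : E4} (hx : x ∈ R.N) (v : V3) :
    2 * Dv R.m v x = 2 * S.g x (S.lam x) v - Dv R.far v x := by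
  have hx0 : x ≠ 0 := hx.1
  have hf : DifferentiableAt ℝ R.far x := (R.smN hx).1.differentiableAt (by simp)
  have ht : DifferentiableAt ℝ (fun y => (S.L y).trace) x :=
    (contDiffAt_trace (S.smL.contDiffAt hx0)).differentiableAt (by simp)
  have h1 : HasFDerivAt R.m ((2 : ℝ)⁻¹ • (fderiv ℝ (fun y => (S.L y).trace) x
      - fderiv ℝ R.far x)) x := by
    have h2 := (ht.hasFDerivAt.sub hf.hasFDerivAt).mul_const (2 : ℝ)⁻¹
    exact h2
  have h3 : Dv R.m v x = (2 : ℝ)⁻¹ * (Dv (fun y => (S.L y).trace) v x - Dv R.far v x) := by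
    unfold Dv
    rw [h1.fderiv]
    rfl
  rw [h3, S.Dv_trL hx0]
  ring

theorem F3_D_diff {x : E4} (hx : x ∈ R.N) : DifferentiableAt ℝ R.F3_D x := by
  have hx0 : x ≠ 0 := hx.1
  have hf : DifferentiableAt ℝ R.far x := (R.smN hx).1.differentiableAt (by simp)
  have hm : DifferentiableAt ℝ R.m x := (R.smN hx).2.1.differentiableAt (by simp)
  have hL := S.smL.contDiffAt hx0
  have ht : DifferentiableAt ℝ (fun y => (S.L y).trace) x :=
    (contDiffAt_trace hL).differentiableAt (by simp)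
  have ht2 : DifferentiableAt ℝ (fun y => (S.L y * S.L y).trace) x :=
    (contDiffAt_trace (hL.mul hL)).differentiableAt (by simp)
  unfold F3_D
  fun_prop

theorem F3_Dv_D {x : E4} (hx : x ∈ R.N) (v : V3) :
    Dv R.F3_D v x = 2 * R.m x * Dv R.m v x
      - ((S.L x).trace * (2 * S.g x (S.lam x) v) - 2 * S.g x (S.L x *ᵥ S.lam x) v)
      + 2 * (Dv R.m v x * R.far x + R.m x * Dv R.far v x) := by
  have hx0 : x ≠ 0 := hx.1
  have hf : DifferentiableAt ℝ R.far x := (R.smN hx).1.differentiableAt (by simp)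
  have hm : DifferentiableAt ℝ R.m x := (R.smN hx).2.1.differentiableAt (by simp)
  have hL := S.smL.contDiffAt hx0
  have ht : DifferentiableAt ℝ (fun y => (S.L y).trace) x :=
    (contDiffAt_trace hL).differentiableAt (by simp)
  have ht2 : DifferentiableAt ℝ (fun y => (S.L y * S.L y).trace) x :=
    (contDiffAt_trace (hL.mul hL)).differentiableAt (by simp)
  have h1 := S.Dv_trL hx0 v
  have h2 := S.Dv_trL2 hx0 v
  unfold Dv at h1 h2 ⊢
  have h3 := ((hm.hasFDerivAt.mul hm.hasFDerivAt).sub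
    (((ht.hasFDerivAt.mul ht.hasFDerivAt).sub ht2.hasFDerivAt).mul_const (2 : ℝ)⁻¹)).add
    ((hm.hasFDerivAt.mul hf.hasFDerivAt).const_mul (2 : ℝ))
  have e : R.F3_D = fun y => R.m y * R.m y - ((S.L y).trace * (S.L y).trace
      - (S.L y * S.L y).trace) * (2 : ℝ)⁻¹ + 2 * (R.m y * R.far y) := by
    funext y
    unfold F3_D
    ring
  have h4 := congrArg (fun l : E4 →L[ℝ] ℝ => l (fld v x)) h3.fderiv
  simp only [_root_.add_apply, _root_.sub_apply, _root_.smul_apply, smul_eq_mul, h1, h2] at h4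
  rw [e]
  refine Eq.trans h4 ?_
  ring

/-- the discriminant is constant along the far root field -/
theorem F3_Dv_D_zero {x : E4} (hx : x ∈ R.N) {w : V3} (hw : S.Ku (R.far x) x = vecMulVec w w) :
    Dv R.F3_D w x = 0 := by
  have hx0 : x ≠ 0 := hx.1
  obtain ⟨-, hPi, -, hL⟩ := R.F3_facts hx hw
  have hPi0 := (R.Pi_pos hx).ne'
  have h1 := R.F3_Dv_far hx hw w
  have h2 := R.F3_Dv_m hx w
  have h3 := R.F3_Dv_D hx w
  have h4 : S.g x (S.L x *ᵥ S.lam x) w = R.far x * S.g x (S.lam x) w := by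
    rw [S.g_L hx0, hL, TB_smul_r]
  have h5 : Dv R.far w x = 2 * S.g x (S.lam x) w := by
    rw [← hPi, mul_comm] at h1
    exact mul_right_cancel₀ hPi0 h1
  have h6 : Dv R.m w x = 0 := by rw [h5] at h2; linarith
  have h7 : (S.L x).trace = 2 * R.m x + R.far x := by rw [Roots.m]; ring
  rw [h3, h4, h5, h6, h7]
  ring

/-- DX7': curves of `F3` stay in `S2` -/
theorem DX7_curve (hNC : S.NC) {γ v : ℝ → E4} {a b : ℝ} (h : R.F3.IsCurve γ v (Icc a b))
    (ha : a ≤ 0) (hb : 0 ≤ b) (h0 : γ 0 ∈ R.S2) : ∀ t ∈ Icc a b, γ t ∈ R.S2 ∧ ‖γ t‖ = ‖γ 0‖ := by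
  have key : ∀ f : E4 → ℝ, (∀ x ∈ R.N, DifferentiableAt ℝ f x) →
      (∀ x ∈ R.N, ∀ w : V3, S.Ku (R.far x) x = vecMulVec w w → Dv f w x = 0) →
      ∀ t ∈ Icc a b, f (γ t) = f (γ 0) := by
    intro f hf hfw
    have h1 : ∀ t ∈ Icc a b, HasDerivWithinAt (fun s => f (γ s)) 0 (Icc a b) t := by
      intro t ht
      obtain ⟨hN, ⟨w, hw, hKu⟩, hder⟩ := h.2 t ht
      have h2 := (hf _ hN).hasFDerivAt.comp_hasDerivWithinAt t hder
      have h3 : fderiv ℝ f (γ t) (v t) = 0 := by
        rw [hw]; exact hfw _ hN w hKu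
      rw [h3] at h2
      exact h2
    have h2 : ∀ t ∈ Icc a b, f (γ t) = f (γ a) := by
      intro t ht
      have hab : a ≤ b := ha.trans hb
      refine constant_of_derivWithin_zero (f := fun s => f (γ s))
        (fun s hs => (h1 s hs).differentiableWithinAt) (fun s hs => ?_) t ht
      have hs' : s ∈ Icc a b := ⟨hs.1, hs.2.le⟩
      have hlt : a < b := lt_of_le_of_lt hs.1 hs.2
      exact (h1 s hs').derivWithin (uniqueDiffOn_Icc hlt s hs')
    intro t ht
    rw [h2 t ht, h2 0 ⟨ha, hb⟩]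
  intro t ht
  have hN : γ t ∈ R.N := (h.2 t ht).1
  have hN0 : γ 0 ∈ R.N := (h.2 0 ⟨ha, hb⟩).1
  constructor
  · rw [R.F3_D_S2 hN, key R.F3_D (fun x hx => R.F3_D_diff hx)
      (fun x hx w hw => R.F3_Dv_D_zero hx hw) t ht]
    exact (R.F3_D_S2 hN0).1 h0
  · have hid : ∀ x : E4, DifferentiableAt ℝ (fun y : E4 => y) x := fun x => differentiableAt_id
    have h1 := key (fun x => (inner ℝ x x : ℝ)) (fun x _ => (hid x).inner ℝ (hid x))
      (fun x hx w _ => by
      unfold Dv
      rw [fderiv_inner_apply ℝ (hid x) (hid x)]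
      simp only [fderiv_fun_id, ContinuousLinearMap.id_apply]
      rw [real_inner_comm x (fld w x), T.inner_fld, add_zero]) t ht
    simp only [real_inner_self_eq_norm_sq] at h1
    have h2 := norm_nonneg (γ t)
    have h3 := norm_nonneg (γ 0)
    nlinarith [sq_nonneg (‖γ t‖ - ‖γ 0‖), sq_nonneg (‖γ t‖ + ‖γ 0‖)]

end Roots

end Pool.Agent.helper68.B2
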