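import Pool.Agent.helper68.B2.Defs

/-! # MP_b2b189_gt: the Sinjukov equation and the bridge from the frozen statement -/

set_option autoImplicit false

namespace Pool.Agent.helper68.B2

open scoped ContDiff Topology Matrix
open Matrix Set

/-! ## calculus -/

section Calculus

variable {F : Type*} [NormedAddCommGroup F] [NormedSpace ℝ F]

theorem STd_cd {f : E4 → F} (hf : Sm f) {x : E4} (hx : x ≠ 0) : ContDiffAt ℝ ∞ f x :=
  ContDiffOn.contDiffAt hf (isOpen_compl_singleton.mem_nhds hx)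

theorem STd_diff {f : E4 → F} (hf : Sm f) {x : E4} (hx : x ≠ 0) : DifferentiableAt ℝ f x :=
  (STd_cd hf hx).differentiableAt (by simp)

theorem STd_sm {f : E4 → F} (h : ∀ x, x ≠ 0 → ContDiffAt ℝ ∞ f x) : Sm f :=
  fun x hx => (h x hx).contDiffWithinAt

/-- the entry map -/
noncomputable def STd_entry (a b : Fin 3) : M3 →L[ℝ] ℝ :=
  LinearMap.toContinuousLinearMap
    { toFun := fun A => A a b
      map_add' := fun _ _ => rfl
      map_smul' := fun _ _ => rfl }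

@[simp] theorem STd_entry_apply (a b : Fin 3) (A : M3) : STd_entry a b A = A a b := rfl

theorem STd_entry_has {A : E4 → M3} {x : E4} (hA : DifferentiableAt ℝ A x) (a b : Fin 3) :
    HasFDerivAt (fun y => A y a b) ((STd_entry a b).comp (fderiv ℝ A x)) x :=
  (STd_entry a b).hasFDerivAt.comp x hA.hasFDerivAt

theorem STd_entry_cd {A : E4 → M3} {x : E4} (hA : ContDiffAt ℝ ∞ A x) (a b : Fin 3) :
    ContDiffAt ℝ ∞ (fun y => A y a b) x :=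
  (STd_entry a b).contDiff.contDiffAt.comp x hA

theorem STd_det_cd {A : E4 → M3} {x : E4} (hA : ContDiffAt ℝ ∞ A x) :
    ContDiffAt ℝ ∞ (fun y => (A y).det) x := by
  simp only [Matrix.det_fin_three]
  have h := fun a b => STd_entry_cd hA a b
  fun_prop

theorem STd_inv_cd {A : E4 → M3} {x : E4} (hA : ContDiffAt ℝ ∞ A x) (hd : (A x).det ≠ 0) :
    ContDiffAt ℝ ∞ (fun y => (A y)⁻¹) x := by
  have hu : IsUnit (A x) := (Matrix.isUnit_iff_isUnit_det _).2 (isUnit_iff_ne_zero.2 hd)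
  obtain ⟨u, hu⟩ := hu
  have h1 : ContDiffAt ℝ ∞ (Ring.inverse : M3 → M3) (A x) := by
    rw [← hu]
    exact contDiffAt_ringInverse ℝ u
  have h2 : (fun y => (A y)⁻¹) = fun y => Ring.inverse (A y) := by
    funext y
    exact Matrix.nonsing_inv_eq_ringInverse _
  rw [h2]
  exact h1.comp x hA

theorem STd_mul {A B : E4 → M3} {x : E4} (hA : DifferentiableAt ℝ A x)
    (hB : DifferentiableAt ℝ B x) (v : V3) :
    Dv (fun y => A y * B y) v x = A x * Dv B v x + Dv A v x * B x := by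
  have h := (hA.hasFDerivAt.mul' hB.hasFDerivAt).fderiv
  exact congrArg (fun l : E4 →L[ℝ] M3 => l (fld v x)) h

theorem STd_inv {A : E4 → M3} {x : E4} (hA : DifferentiableAt ℝ A x)
    (hB : DifferentiableAt ℝ (fun y => (A y)⁻¹) x) (hd : ∀ᶠ y in 𝓝 x, (A y).det ≠ 0) (v : V3) :
    Dv (fun y => (A y)⁻¹) v x = -((A x)⁻¹ * Dv A v x * (A x)⁻¹) := by
  have h1 : (fun y => A y * (A y)⁻¹) =ᶠ[𝓝 x] fun _ => (1 : M3) := by
    filter_upwards [hd] with y hy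
    exact Matrix.mul_nonsing_inv _ (isUnit_iff_ne_zero.2 hy)
  have h2 := STd_mul hA hB v
  have h3 : Dv (fun y => A y * (A y)⁻¹) v x = 0 := by
    have h5 : fderiv ℝ (fun y => A y * (A y)⁻¹) x = 0 :=
      h1.fderiv_eq.trans (by simp)
    show fderiv ℝ (fun y => A y * (A y)⁻¹) x (fld v x) = 0
    rw [h5]
    rfl
  rw [h3] at h2
  have hx : IsUnit (A x).det := isUnit_iff_ne_zero.2 hd.self_of_nhds
  have h4 : A x * Dv (fun y => (A y)⁻¹) v x = -(Dv A v x * (A x)⁻¹) := by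
    rw [eq_neg_iff_add_eq_zero]; exact h2.symm
  calc Dv (fun y => (A y)⁻¹) v x = (A x)⁻¹ * (A x * Dv (fun y => (A y)⁻¹) v x) := by
        rw [← Matrix.mul_assoc, Matrix.nonsing_inv_mul _ hx, Matrix.one_mul]
    _ = _ := by rw [h4, Matrix.mul_neg, Matrix.mul_assoc]

theorem STd_det {A : E4 → M3} {x : E4} (hA : DifferentiableAt ℝ A x) (C : M3) (v : V3)
    (h : Dv A v x = Cᵀ * A x + A x * C) :
    Dv (fun y => (A y).det) v x = 2 * C.trace * (A x).det := by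
  have hd := fun a b => STd_entry_has hA a b
  have hv : ∀ a b, ((STd_entry a b).comp (fderiv ℝ A x)) (fld v x) = (Cᵀ * A x + A x * C) a b := by
    intro a b
    rw [← h]
    rfl
  have h1 := ((((((((hd 0 0).mul (hd 1 1)).mul (hd 2 2)).sub
      (((hd 0 0).mul (hd 1 2)).mul (hd 2 1))).sub
      (((hd 0 1).mul (hd 1 0)).mul (hd 2 2))).add (((hd 0 1).mul (hd 1 2)).mul (hd 2 0))).add
      (((hd 0 2).mul (hd 1 0)).mul (hd 2 1))).sub (((hd 0 2).mul (hd 1 1)).mul (hd 2 0)))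
  have e : (fun y => (A y).det) = fun y => A y 0 0 * A y 1 1 * A y 2 2 - A y 0 0 * A y 1 2 * A y 2 1
      - A y 0 1 * A y 1 0 * A y 2 2 + A y 0 1 * A y 1 2 * A y 2 0 + A y 0 2 * A y 1 0 * A y 2 1
      - A y 0 2 * A y 1 1 * A y 2 0 := by
    funext y
    rw [Matrix.det_fin_three]
  rw [e]
  show fderiv ℝ _ x (fld v x) = _
  have h2 := h1.fderiv
  have h3 := congrArg (fun l : E4 →L[ℝ] ℝ => l (fld v x)) h2
  simp only [_root_.add_apply, _root_.sub_apply, _root_.smul_apply, hv, Pi.mul_apply,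
    smul_eq_mul] at h3
  refine Eq.trans h3 ?_
  simp only [Matrix.det_fin_three, Matrix.trace_fin_three, Matrix.add_apply, Matrix.mul_apply,
    Fin.sum_univ_three, Matrix.transpose_apply]
  ring

end Calculus

/-! ## the Sinjukov equation -/

/-- the difference of the connections -/
theorem STd_D (D : M3) (φ : V3) (i : Fin 3)
    (h : ∀ k j, D k j = (if k = i then φ j else 0) + (if k = j then φ i else 0)) :
    D = vecMulVec (ee i) φ + φ i • (1 : M3) := by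
  ext k j
  rw [h, Matrix.add_apply, Matrix.vecMulVec_apply, Matrix.smul_apply, Matrix.one_apply, ee]
  by_cases h1 : k = i <;> by_cases h2 : k = j <;> simp [h1, h2, Pi.single_apply]

/-- algebra of the Sinjukov equation: `A = G₂⁻¹ G₁` -/
theorem STd_alg (G₁ G₂ Γ D dG₁ dG₂ : M3) (φ : V3) (i : Fin 3) (hG₁ : G₁ᵀ = G₁)
    (hG₂ : G₂ᵀ = G₂) (hd : G₂.det ≠ 0) (h₁ : dG₁ = Γᵀ * G₁ + G₁ * Γ)
    (h₂ : dG₂ = (Γ + D)ᵀ * G₂ + G₂ * (Γ + D))
    (hD : D = vecMulVec (ee i) φ + φ i • (1 : M3)) :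
    (G₂⁻¹ * dG₁ + -(G₂⁻¹ * dG₂ * G₂⁻¹) * G₁) + (Γ * (G₂⁻¹ * G₁) - (G₂⁻¹ * G₁) * Γ)
      = (-(2 * φ i)) • (G₂⁻¹ * G₁) + odot G₁ (ee i) (-(G₂⁻¹ *ᵥ φ)) := by
  have hu : IsUnit G₂.det := isUnit_iff_ne_zero.2 hd
  have hI : G₂⁻¹ * G₂ = 1 := Matrix.nonsing_inv_mul _ hu
  have hI' : G₂ * G₂⁻¹ = 1 := Matrix.mul_nonsing_inv _ hu
  have hT : (G₂⁻¹)ᵀ = G₂⁻¹ := by rw [Matrix.transpose_nonsing_inv, hG₂]
  have e1 : (G₂⁻¹ * dG₁ + -(G₂⁻¹ * dG₂ * G₂⁻¹) * G₁) + (Γ * (G₂⁻¹ * G₁) - (G₂⁻¹ * G₁) * Γ)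
      = -((G₂⁻¹ * Dᵀ + D * G₂⁻¹) * G₁) := by
    have e2 : G₂⁻¹ * dG₂ * G₂⁻¹ = G₂⁻¹ * (Γ + D)ᵀ + (Γ + D) * G₂⁻¹ := by
      rw [h₂, Matrix.mul_add, Matrix.add_mul]
      congr 1
      · rw [Matrix.mul_assoc, Matrix.mul_assoc, hI', Matrix.mul_one]
      · rw [← Matrix.mul_assoc, hI, Matrix.one_mul]
    rw [e2, h₁, Matrix.transpose_add]
    noncomm_ring
  have e3 : G₂⁻¹ * Dᵀ + D * G₂⁻¹
      = vecMulVec (G₂⁻¹ *ᵥ φ) (ee i) + vecMulVec (ee i) (G₂⁻¹ *ᵥ φ) + (2 * φ i) • G₂⁻¹ := by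
    rw [hD, Matrix.transpose_add, Matrix.transpose_smul, Matrix.transpose_one,
      Matrix.transpose_vecMulVec, Matrix.mul_add, Matrix.add_mul, Matrix.mul_vecMulVec,
      Matrix.vecMulVec_mul, Matrix.mul_smul, Matrix.smul_mul, Matrix.mul_one, Matrix.one_mul]
    have e4 : φ ᵥ* G₂⁻¹ = G₂⁻¹ *ᵥ φ := by
      rw [← Matrix.mulVec_transpose, hT]
    rw [e4]
    module
  have e5 : ∀ v : V3, v ᵥ* G₁ = G₁ *ᵥ v := fun v => by rw [← Matrix.mulVec_transpose, hG₁]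
  rw [e1, e3, odot, Matrix.add_mul, Matrix.add_mul, Matrix.vecMulVec_mul, Matrix.vecMulVec_mul,
    e5, e5, Matrix.mulVec_neg, Matrix.smul_mul, Matrix.vecMulVec_neg, Matrix.neg_vecMulVec]
  module

/-- b2:BRd  Sinjukov equation and the final bridge -/
theorem BRd_sinjukov (G₁ G₂ : E4 → M3) (hG₁ : Sm G₁) (hG₂ : Sm G₂) (hH₁ : Hom G₁) (hH₂ : Hom G₂)
    (hs₁ : ∀ x, x ≠ 0 → (G₁ x)ᵀ = G₁ x ∧ (G₁ x).det ≠ 0)
    (hs₂ : ∀ x, x ≠ 0 → (G₂ x)ᵀ = G₂ x ∧ (G₂ x).det ≠ 0)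
    (Γ₁ Γ₂ : Fin 3 → E4 → M3) (hΓ₁ : ∀ i, Sm (Γ₁ i)) (hΓ₂ : ∀ i, Sm (Γ₂ i))
    (hΓH₁ : ∀ i, Hom (Γ₁ i)) (hΓH₂ : ∀ i, Hom (Γ₂ i))
    (hm₁ : ∀ x, x ≠ 0 → ∀ i, Dv G₁ (ee i) x = (Γ₁ i x)ᵀ * G₁ x + G₁ x * Γ₁ i x)
    (hm₂ : ∀ x, x ≠ 0 → ∀ i, Dv G₂ (ee i) x = (Γ₂ i x)ᵀ * G₂ x + G₂ x * Γ₂ i x)
    (φ : E4 → V3) (hφ : ∀ x, x ≠ 0 → ∀ i k j,
      Γ₂ i x k j - Γ₁ i x k j = (if k = i then φ x j else 0) + (if k = j then φ x i else 0)) :
    ∃ (L : E4 → M3) (lam : E4 → V3), Sm L ∧ Hom L ∧ Sm lam ∧ Hom lam ∧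
      (∀ x, x ≠ 0 → L x = ((|(G₂ x).det / (G₁ x).det|) ^ (1 / 4 : ℝ)) • ((G₂ x)⁻¹ * G₁ x)) ∧
      (∀ x, x ≠ 0 → (G₁ x * L x)ᵀ = G₁ x * L x) ∧
      (∀ x, x ≠ 0 → ∀ i,
        Dv L (ee i) x + (Γ₁ i x * L x - L x * Γ₁ i x) = odot (G₁ x) (ee i) (lam x)) := by
  -- the 1-form
  set ψ : E4 → V3 := fun x i => (1 / 4 : ℝ) * ((Γ₂ i x).trace - (Γ₁ i x).trace) with hψ
  have hφψ : ∀ x, x ≠ 0 → φ x = ψ x := by
    intro x hx
    funext i
    have h0 := hφ x hx i 0 0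
    have h1 := hφ x hx i 1 1
    have h2 := hφ x hx i 2 2
    simp only [hψ, Matrix.trace_fin_three]
    have e : (if (0 : Fin 3) = i then φ x 0 else 0) + (if (1 : Fin 3) = i then φ x 1 else 0)
        + (if (2 : Fin 3) = i then φ x 2 else 0) = φ x i := by
      fin_cases i <;> simp
    simp only [if_true] at h0 h1 h2
    linarith
  have hD : ∀ x, x ≠ 0 → ∀ i, Γ₂ i x = Γ₁ i x + (vecMulVec (ee i) (ψ x) + ψ x i • (1 : M3)) := by
    intro x hx i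
    rw [← STd_D (Γ₂ i x - Γ₁ i x) (ψ x) i]
    · abel
    · intro k j
      rw [Matrix.sub_apply, hφ x hx i k j, hφψ x hx]
  -- the density
  set l : E4 → ℝ := fun x => (Real.log (G₂ x).det - Real.log (G₁ x).det) * (1 / 4) with hl
  set a : E4 → ℝ := fun x => Real.exp (l x) with ha
  have hacd : ∀ x, x ≠ 0 → ContDiffAt ℝ ∞ a x := fun x hx =>
    ((((STd_det_cd (STd_cd hG₂ hx)).log (hs₂ x hx).2).sub
      ((STd_det_cd (STd_cd hG₁ hx)).log (hs₁ x hx).2)).mul contDiffAt_const).exp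
  have hax : ∀ x, x ≠ 0 → a x = |(G₂ x).det / (G₁ x).det| ^ (1 / 4 : ℝ) := by
    intro x hx
    have h2 := (hs₂ x hx).2
    have h1 := (hs₁ x hx).2
    rw [Real.rpow_def_of_pos (abs_pos.2 (div_ne_zero h2 h1)), Real.log_abs, Real.log_div h2 h1]
  have hDa : ∀ x, x ≠ 0 → ∀ i, Dv a (ee i) x = 2 * ψ x i * a x := by
    intro x hx i
    have h2 : DifferentiableAt ℝ (fun y => (G₂ y).det) x :=
      (STd_det_cd (STd_cd hG₂ hx)).differentiableAt (by simp)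
    have h1 : DifferentiableAt ℝ (fun y => (G₁ y).det) x :=
      (STd_det_cd (STd_cd hG₁ hx)).differentiableAt (by simp)
    have h3 := ((((h2.hasFDerivAt.log (hs₂ x hx).2).sub
      (h1.hasFDerivAt.log (hs₁ x hx).2)).mul_const (1 / 4 : ℝ)).exp)
    have h4 := congrArg (fun l : E4 →L[ℝ] ℝ => l (fld (ee i) x)) h3.fderiv
    have h5 : Dv (fun y => (G₂ y).det) (ee i) x = _ :=
      STd_det (STd_diff hG₂ hx) (Γ₂ i x) (ee i) (hm₂ x hx i)
    have h6 : Dv (fun y => (G₁ y).det) (ee i) x = _ :=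
      STd_det (STd_diff hG₁ hx) (Γ₁ i x) (ee i) (hm₁ x hx i)
    simp only [Dv] at h5 h6
    simp only [_root_.sub_apply, _root_.smul_apply, smul_eq_mul, h5, h6, Pi.sub_apply] at h4
    refine Eq.trans h4 ?_
    have e2 : ((G₂ x).det)⁻¹ * (2 * (Γ₂ i x).trace * (G₂ x).det) = 2 * (Γ₂ i x).trace := by
      have := (hs₂ x hx).2
      field_simp
    have e1 : ((G₁ x).det)⁻¹ * (2 * (Γ₁ i x).trace * (G₁ x).det) = 2 * (Γ₁ i x).trace := by
      have := (hs₁ x hx).2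
      field_simp
    rw [e1, e2]
    simp only [hψ, ha, hl]
    ring
  set A : E4 → M3 := fun x => (G₂ x)⁻¹ * G₁ x with hA
  have hIcd : ∀ x, x ≠ 0 → ContDiffAt ℝ ∞ (fun y => (G₂ y)⁻¹) x := fun x hx =>
    STd_inv_cd (STd_cd hG₂ hx) (hs₂ x hx).2
  have hAcd : ∀ x, x ≠ 0 → ContDiffAt ℝ ∞ A x := fun x hx =>
    (hIcd x hx).mul (STd_cd hG₁ hx)
  have hDA : ∀ x, x ≠ 0 → ∀ i, Dv A (ee i) x + (Γ₁ i x * A x - A x * Γ₁ i x)
      = (-(2 * ψ x i)) • A x + odot (G₁ x) (ee i) (-((G₂ x)⁻¹ *ᵥ ψ x)) := by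
    intro x hx i
    have hev : ∀ᶠ y in 𝓝 x, (G₂ y).det ≠ 0 := by
      filter_upwards [isOpen_compl_singleton.mem_nhds hx] with y hy
      exact (hs₂ y hy).2
    have h1 := STd_mul (A := fun y => (G₂ y)⁻¹) (B := G₁)
      ((hIcd x hx).differentiableAt (by simp)) (STd_diff hG₁ hx) (ee i)
    have h2 := STd_inv (STd_diff hG₂ hx) ((hIcd x hx).differentiableAt (by simp)) hev (ee i)
    rw [h2] at h1
    have h3 : Dv A (ee i) x = Dv (fun y => (G₂ y)⁻¹ * G₁ y) (ee i) x := rfl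
    rw [h3, h1]
    refine STd_alg (G₁ x) (G₂ x) (Γ₁ i x) (vecMulVec (ee i) (ψ x) + ψ x i • (1 : M3)) _ _ (ψ x) i
      (hs₁ x hx).1 (hs₂ x hx).1 (hs₂ x hx).2 (hm₁ x hx i) ?_ rfl
    rw [hm₂ x hx i, hD x hx i]
  refine ⟨fun x => a x • A x, fun x => a x • (-((G₂ x)⁻¹ *ᵥ ψ x)), ?_, ?_, ?_, ?_, ?_, ?_, ?_⟩
  · exact STd_sm fun x hx => (hacd x hx).smul (hAcd x hx)
  · intro t ht x
    simp only [ha, hA, hl, hH₁ t ht x, hH₂ t ht x]
  · refine STd_sm fun x hx => (hacd x hx).smul (ContDiffAt.neg ?_)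
    rw [contDiffAt_pi]
    intro i
    have h1 : ∀ k, ContDiffAt ℝ ∞ (fun y => ψ y k) x := by
      intro k
      simp only [hψ, Matrix.trace_fin_three]
      have e1 := fun a b => STd_entry_cd (STd_cd (hΓ₁ k) hx) a b
      have e2 := fun a b => STd_entry_cd (STd_cd (hΓ₂ k) hx) a b
      exact contDiffAt_const.mul ((((e2 0 0).add (e2 1 1)).add (e2 2 2)).sub
        (((e1 0 0).add (e1 1 1)).add (e1 2 2)))
    have h2 := fun a b => STd_entry_cd (hIcd x hx) a b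
    simp only [Matrix.mulVec, dotProduct, Fin.sum_univ_three]
    exact (((h2 i 0).mul (h1 0)).add ((h2 i 1).mul (h1 1))).add ((h2 i 2).mul (h1 2))
  · intro t ht x
    simp only [ha, hl, hψ, hH₁ t ht x, hH₂ t ht x, hΓH₁ _ t ht x, hΓH₂ _ t ht x]
  · intro x hx
    rw [← hax x hx]
  · intro x hx
    have h1 : G₁ x * (a x • A x) = a x • (G₁ x * (G₂ x)⁻¹ * G₁ x) := by
      rw [Matrix.mul_smul, hA, Matrix.mul_assoc]
    have hT : ((G₂ x)⁻¹)ᵀ = (G₂ x)⁻¹ := by rw [Matrix.transpose_nonsing_inv, (hs₂ x hx).1]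
    show (G₁ x * (a x • A x))ᵀ = G₁ x * (a x • A x)
    rw [h1, Matrix.transpose_smul, Matrix.transpose_mul, Matrix.transpose_mul, hT, (hs₁ x hx).1,
      Matrix.mul_assoc]
  · intro x hx i
    have h1 := (((hacd x hx).differentiableAt (by simp)).hasFDerivAt.smul
      ((hAcd x hx).differentiableAt (by simp)).hasFDerivAt)
    have h2 := congrArg (fun l : E4 →L[ℝ] M3 => l (fld (ee i) x)) h1.fderiv
    have h3 : Dv (fun y => a y • A y) (ee i) x = a x • Dv A (ee i) x + Dv a (ee i) x • A x := h2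
    rw [h3, hDa x hx i]
    have h4 : a x • Dv A (ee i) x + (2 * ψ x i * a x) • A x
        + (Γ₁ i x * (a x • A x) - (a x • A x) * Γ₁ i x)
        = a x • (Dv A (ee i) x + (Γ₁ i x * A x - A x * Γ₁ i x)) + (2 * ψ x i * a x) • A x := by
      rw [Matrix.mul_smul, Matrix.smul_mul]
      module
    rw [h4, hDA x hx i, odot, odot, Matrix.mulVec_smul, Matrix.vecMulVec_smul,
      Matrix.smul_vecMulVec]
    module

end Pool.Agent.helper68.B2
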